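import Mathlib
import Pool.Agent.MP_815c6c_an.L.All

open Set Metric MeasureTheory
open scoped ContDiff

namespace Pool.Agent.Results.MP_815c6c_an.Dichotomy

/-- Euclidean space. -/
abbrev E (d : ℕ) : Type := EuclideanSpace ℝ (Fin d)

/-- Matrices with `n` rows and `d` columns, with the Frobenius norm. -/
abbrev M (d n : ℕ) : Type := EuclideanSpace ℝ (Fin n × Fin d)

/-- `V(ξ) = |ξ|^((p-2)/2) ξ`. -/
noncomputable def V {d n : ℕ} (p : ℝ) (ξ : M d n) : M d n := ‖ξ‖ ^ ((p - 2) / 2) • ξ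

/-- The `L^2` mean oscillation of `f` on the ball with centre `x₀` and radius `r`. -/
noncomputable def osc {d n : ℕ} (f : E d → M d n) (x₀ : E d) (r : ℝ) : ℝ :=
  √(⨍ x in ball x₀ r, ‖f x - ⨍ y in ball x₀ r, f y‖ ^ 2)

/-- `h` lies in `W^{1,p}_loc(Ω; R^n)`, has the weak gradient `G`, and is `p`-harmonic on `Ω`. -/
def PHarmonic {d n : ℕ} (p : ℝ) (Ω : Set (E d)) (h : E d → E n) (G : E d → M d n) : Prop :=
  (∀ K ⊆ Ω, IsCompact K → MemLp h (ENNReal.ofReal p) (volume.restrict K) ∧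
    MemLp G (ENNReal.ofReal p) (volume.restrict K)) ∧
  (∀ φ : E d → ℝ, ContDiff ℝ ∞ φ → HasCompactSupport φ → tsupport φ ⊆ Ω → ∀ a i,
    ∫ x, h x a * fderiv ℝ φ x (EuclideanSpace.single i 1) = -∫ x, φ x * G x (a, i)) ∧
  ∀ φ : E d → E n, ContDiff ℝ ∞ φ → HasCompactSupport φ → tsupport φ ⊆ Ω →
    ∫ x, ∑ a, ∑ i, ‖G x‖ ^ (p - 2) * G x (a, i) * fderiv ℝ φ x (EuclideanSpace.single i 1) a = 0

/-- `f` has a `C^1` representative on `Ω`. -/
def C1 {d n : ℕ} (Ω : Set (E d)) (f : E d → M d n) : Prop :=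
  ∃ W : E d → M d n, ContDiffOn ℝ 1 W Ω ∧ W =ᵐ[volume.restrict Ω] f

/-- The mean oscillation of `f` decays linearly, with the constant `c`, on the balls in `Ω`. -/
def Decay {d n : ℕ} (c : ℝ) (Ω : Set (E d)) (f : E d → M d n) : Prop :=
  ∀ (x₀ : E d) (r : ℝ), 0 < r → ball x₀ r ⊆ Ω → MemLp f 2 (volume.restrict (ball x₀ r)) →
    ∀ θ ∈ Ioc (0 : ℝ) 1, osc f x₀ (θ * r) ≤ c * θ * osc f x₀ r

theorem result (d n : ℕ) (hd : 1 ≤ d) (hn : 1 ≤ n) :
    List.TFAE [d ≤ 2,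
      ∀ p : ℝ, 1 < p → ∃ c : ℝ, ∀ (Ω : Set (E d)) (h : E d → E n) (G : E d → M d n), IsOpen Ω →
        PHarmonic p Ω h G → C1 Ω (fun x => V p (G x)) ∧ Decay c Ω (fun x => V p (G x)),
      ∀ p : ℝ, 1 < p → ∀ (Ω : Set (E d)) (h : E d → E n) (G : E d → M d n), IsOpen Ω →
        PHarmonic p Ω h G → C1 Ω (fun x => V p (G x)),
      ∀ p : ℝ, 1 < p → ∀ (Ω : Set (E d)) (h : E d → E n) (G : E d → M d n), IsOpen Ω →
        PHarmonic p Ω h G → ∃ c : ℝ, Decay c Ω (fun x => V p (G x))] := by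
  obtain ⟨yes, no⟩ := Pool.Agent.MP_815c6c_an.L.dim d n hd hn
  have e : ∀ p : ℝ, (p - 2) / 2 = p / 2 - 1 := fun p => by ring
  simp only [V, e]
  tfae_have 1 → 2 := yes
  tfae_have 2 → 3 := fun k p hp Ω h G hΩ H => ((k p hp).choose_spec Ω h G hΩ H).1
  tfae_have 2 → 4 := fun k p hp Ω h G hΩ H => ⟨_, ((k p hp).choose_spec Ω h G hΩ H).2⟩
  tfae_have 3 → 1 := fun k => by
    by_contra q
    obtain ⟨h, G, hG⟩ := no q
    exact ((hG univ).2 isOpen_univ trivial).1 (k _ (by norm_num) univ h G isOpen_univ (hG univ).1)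
  tfae_have 4 → 1 := fun k => by
    by_contra q
    obtain ⟨h, G, hG⟩ := no q
    exact ((hG univ).2 isOpen_univ trivial).2 (k _ (by norm_num) univ h G isOpen_univ (hG univ).1)
  tfae_finish

end Pool.Agent.Results.MP_815c6c_an.Dichotomy
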