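import Mathlib
import Pool.Agent.MP_815c6c_an.H.All

open Set Metric MeasureTheory
open scoped ContDiff

namespace Pool.Agent.Results.MP_815c6c_an.LargeP

/-- Euclidean space. -/
abbrev E (d : ℕ) : Type := EuclideanSpace ℝ (Fin d)

/-- Matrices with `n` rows and `d` columns, with the Frobenius norm. -/
abbrev M (d n : ℕ) : Type := EuclideanSpace ℝ (Fin n × Fin d)

/-- `T b ξ = |ξ|^(b-1) ξ`; the exponent `b = p / 2` gives `V(ξ) = |ξ|^((p-2)/2) ξ`. -/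
noncomputable def T {d n : ℕ} (b : ℝ) (ξ : M d n) : M d n := ‖ξ‖ ^ (b - 1) • ξ

/-- The `L^2` mean oscillation of `f` on the ball with centre `x₀` and radius `r`. -/
noncomputable def osc {d n : ℕ} (f : E d → M d n) (x₀ : E d) (r : ℝ) : ℝ :=
  √(⨍ x in ball x₀ r, ‖f x - ⨍ y in ball x₀ r, f y‖ ^ 2)

/-- `h` lies in `W^{1,p}_loc(Ω; R^n)`, has the weak gradient `G`, and is `p`-harmonic on `Ω`. -/
def PHarmonic {d n : ℕ} (p : ℝ) (Ω : Set (E d)) (h : E d → E n) (G : E d → M d n) : Prop :=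
  (∀ K ⊆ Ω, IsCompact K → MemLp h (ENNReal.ofReal p) (volume.restrict K) ∧
    MemLp G (ENNReal.ofReal p) (volume.restrict K)) ∧
  (∀ φ : E d → ℝ, ContDiff ℝ ∞ φ → HasCompactSupport φ → tsupport φ ⊆ Ω → ∀ a i,
    ∫ x, h x a * fderiv ℝ φ x (EuclideanSpace.single i 1) = -∫ x, φ x * G x (a, i)) ∧
  ∀ φ : E d → E n, ContDiff ℝ ∞ φ → HasCompactSupport φ → tsupport φ ⊆ Ω →
    ∫ x, ∑ a, ∑ i, ‖G x‖ ^ (p - 2) * G x (a, i) * fderiv ℝ φ x (EuclideanSpace.single i 1) a = 0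

/-- `f` has a `C^1` representative on `Ω`. -/
def C1 {d n : ℕ} (Ω : Set (E d)) (f : E d → M d n) : Prop :=
  ∃ W : E d → M d n, ContDiffOn ℝ 1 W Ω ∧ W =ᵐ[volume.restrict Ω] f

/-- The mean oscillation of `f` decays linearly, with the constant `c`, on the balls in `Ω`. -/
def Decay {d n : ℕ} (c : ℝ) (Ω : Set (E d)) (f : E d → M d n) : Prop :=
  ∀ (x₀ : E d) (r : ℝ), 0 < r → ball x₀ r ⊆ Ω → MemLp f 2 (volume.restrict (ball x₀ r)) →
    ∀ θ ∈ Ioc (0 : ℝ) 1, osc f x₀ (θ * r) ≤ c * θ * osc f x₀ r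

theorem result (d : ℕ) (κ : ℝ) (hκ : 0 < κ) : ∃ p₀ : ℝ, ∀ p : ℝ, p₀ ≤ p → ∀ b : ℝ, κ * p ≤ b →
    ∃ c : ℝ, ∀ (Ω : Set (E d)) (h : E d → E 1) (G : E d → M d 1), IsOpen Ω → PHarmonic p Ω h G →
      C1 Ω (fun x => T b (G x)) ∧ Decay c Ω (fun x => T b (G x)) := by
  obtain ⟨p₀, H⟩ := Pool.Agent.MP_815c6c_an.H.large d κ hκ
  refine ⟨p₀, fun p hp b hb => ?_⟩
  have e : b - 1 = 2 * b / 2 - 1 := by ring
  simp only [T, e]
  exact H p hp b hb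

end Pool.Agent.Results.MP_815c6c_an.LargeP
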