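import Mathlib
import Pool.Agent.MP_815c6c_an.Main

open Set Metric MeasureTheory
open scoped RealInnerProductSpace ContDiff

namespace Pool.Agent.Results.MP_815c6c_an.ScalarCounterexample

/-- `A(ξ) = |ξ|^(p-2) ξ`. -/
noncomputable def A {d : ℕ} (p : ℝ) (ξ : EuclideanSpace ℝ (Fin d)) : EuclideanSpace ℝ (Fin d) :=
  ‖ξ‖ ^ (p - 2) • ξ

/-- `V(ξ) = |ξ|^((p-2)/2) ξ`. -/
noncomputable def V {d : ℕ} (p : ℝ) (ξ : EuclideanSpace ℝ (Fin d)) : EuclideanSpace ℝ (Fin d) :=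
  ‖ξ‖ ^ ((p - 2) / 2) • ξ

/-- The `L^2` mean oscillation of `f` on the ball with centre `x₀` and radius `r`. -/
noncomputable def osc {d : ℕ} (f : EuclideanSpace ℝ (Fin d) → EuclideanSpace ℝ (Fin d))
    (x₀ : EuclideanSpace ℝ (Fin d)) (r : ℝ) : ℝ :=
  √(⨍ x in ball x₀ r, ‖f x - ⨍ y in ball x₀ r, f y‖ ^ 2)

theorem result (d m : ℕ) (p : ℝ) (hp1 : 1 < p) (hp2 : p < 2) (hmd : 2 * m ≤ d)
    (hc : 0 < 3 * p ^ 2 + (2 * (m:ℝ) - 5) * p - 6) :
    ∃ h : EuclideanSpace ℝ (Fin d) → ℝ, ContDiff ℝ 1 h ∧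
      (∀ φ : EuclideanSpace ℝ (Fin d) → ℝ, ContDiff ℝ ∞ φ → HasCompactSupport φ →
        Integrable (fun x => ⟪A p (gradient h x), gradient φ x⟫) ∧
          ∫ x, ⟪A p (gradient h x), gradient φ x⟫ = 0) ∧
      ∀ Ω : Set (EuclideanSpace ℝ (Fin d)), IsOpen Ω → 0 ∈ Ω →
        (¬ ∃ W : EuclideanSpace ℝ (Fin d) → EuclideanSpace ℝ (Fin d),
          ContDiffOn ℝ 1 W Ω ∧ W =ᵐ[volume.restrict Ω] fun x => V p (gradient h x)) ∧
        ¬ ∃ c : ℝ, ∀ (x₀ : EuclideanSpace ℝ (Fin d)) (r : ℝ), 0 < r → ball x₀ r ⊆ Ω →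
          ∀ θ ∈ Ioc (0:ℝ) 1, osc (fun x => V p (gradient h x)) x₀ (θ * r) ≤
            c * θ * osc (fun x => V p (gradient h x)) x₀ r := by
  obtain ⟨k, h, hk1, hk2, hh, hhom, ⟨x₁, hx₁⟩, hcont, hweak⟩ :=
    Pool.Agent.MP_815c6c_an.exists_scalar_example d m p hp1 hp2 hmd hc
  have hp0 : 0 < p := by linarith
  have hβ0 : 0 < (k - 1) * p / 2 := by
    have : 0 < k - 1 := by linarith
    positivity
  have hβ1 : (k - 1) * p / 2 < 1 := by
    have : k - 1 < 2 / p := by linarith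
    rw [lt_div_iff₀ hp0] at this
    linarith
  have hVc : Continuous fun x => V p (gradient h x) :=
    (Pool.Agent.MP_815c6c_an.continuous_norm_rpow_smul (s := (p - 2) / 2) (by linarith)).comp hcont
  have hVh : ∀ θ : ℝ, 0 < θ → ∀ x, V p (gradient h (θ • x)) =
      θ ^ ((k - 1) * p / 2) • V p (gradient h x) := by
    intro θ hθ x
    have h1 : 0 < θ ^ (k - 1) := Real.rpow_pos_of_pos hθ _
    rw [hhom θ hθ, V, V, norm_smul, Real.norm_of_nonneg h1.le,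
      Real.mul_rpow h1.le (norm_nonneg _), ← Real.rpow_mul hθ.le, smul_smul, smul_smul,
      show (k - 1) * p / 2 = (k - 1) * ((p - 2) / 2) + (k - 1) by ring, Real.rpow_add hθ]
    congr 1; ring
  have hV1 : V p (gradient h x₁) ≠ 0 :=
    smul_ne_zero (Real.rpow_pos_of_pos (norm_pos_iff.2 hx₁) _).ne' hx₁
  refine ⟨h, hh, fun φ hφ hφc => ?_, fun Ω hΩ h0 => ⟨?_, ?_⟩⟩
  · have hφ1 : ContDiff ℝ 1 φ := hφ.of_le (by exact_mod_cast le_top)
    have e : (fun x => ⟪A p (gradient h x), gradient φ x⟫) =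
        fun x => fderiv ℝ φ x (‖gradient h x‖ ^ (p - 2) • gradient h x) := by
      ext x; rw [real_inner_comm, inner_gradient_left, A]
    rw [e]
    refine ⟨Continuous.integrable_of_hasCompactSupport ?_ ?_, hweak φ hφ1 hφc⟩
    · exact (hφ1.continuous_fderiv one_ne_zero).clm_apply
        ((Pool.Agent.MP_815c6c_an.continuous_norm_rpow_smul (s := p - 2) (by linarith)).comp hcont)
    · refine (hφc.fderiv (𝕜 := ℝ)).mono fun x hx h => hx ?_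
      simp [h]
  · exact Pool.Agent.MP_815c6c_an.homog_no_C1 hβ0 hβ1 hVc hVh hV1 hΩ h0
  · rintro ⟨c, hc'⟩
    obtain ⟨ρ, hρ, hb⟩ := Metric.isOpen_iff.1 hΩ 0 h0
    exact Pool.Agent.MP_815c6c_an.homog_no_decay hβ0 hβ1 hVc hVh hV1 hρ
      ⟨c, fun θ hθ => hc' 0 ρ hρ hb θ hθ⟩

end Pool.Agent.Results.MP_815c6c_an.ScalarCounterexample
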